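import Pool.Agent.Helper11.RV.Fil
import Pool.Agent.Helper24.RV.BetaSum
import Pool.Agent.Helper58.RV.Fam
import Pool.Agent.Helper72.RV.Weil7

/-!
# RL8: the inequality for the limits of the local values, with an exceptional form which is chosen first
-/

set_option autoImplicit false
set_option linter.unusedSectionVars false

namespace Pool.Agent.SQ.RV

open NumberField Filter Module MvPolynomial
open Pool.Agent.Helper64.Vojta (Pl nv sn above)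
open Pool.Agent.Helper52.Vojta (ldeg)
open Pool.Agent.V2
open Pool.Agent.Chart (fld dg crd hgt)
open Pool.Agent.ZS (HQ mem_HQ)

universe u v

/-- the grid -/
private theorem grid80 {q : ℕ} (T : Finset (Fin q)) (L : Fin q → ℝ) (hL : ∀ i ∈ T, 0 ≤ L i) {M : ℕ} (hM : 0 < M) :
    ∃ (z : Fin q → Fin (M + 1)) (c : ℝ), 0 ≤ c ∧ (∀ i ∉ T, (z i : ℕ) = 0) ∧
      ∀ i ∈ T, c * (z i : ℕ) ≤ L i ∧ L i - (∑ i ∈ T, L i) / M ≤ c * (z i : ℕ) := by
  classical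
  have hM0 : (0 : ℝ) < M := by exact_mod_cast hM
  obtain ⟨S, hS⟩ : ∃ S : ℝ, S = ∑ i ∈ T, L i := ⟨_, rfl⟩
  have hS0 : 0 ≤ S := by
    rw [hS]
    exact Finset.sum_nonneg hL
  rw [← hS]
  have hLS : ∀ i ∈ T, L i ≤ S := fun i hi => by
    rw [hS]
    exact Finset.single_le_sum hL hi
  rcases hS0.eq_or_lt with h | h
  · refine ⟨fun _ => 0, 0, le_rfl, fun _ _ => rfl, fun i hi => ?_⟩
    rw [← h, zero_div, sub_zero, zero_mul]
    have h1 := hLS i hi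
    rw [← h] at h1
    exact ⟨hL i hi, h1⟩
  · refine ⟨fun i => if i ∈ T then ⟨min M ⌊M * (L i / S)⌋₊, by omega⟩ else 0, S / M, (div_pos h hM0).le, fun i hi => by
      beta_reduce
      rw [if_neg hi]
      rfl, fun i hi => ?_⟩
    beta_reduce
    rw [if_pos hi]
    show S / M * ((min M ⌊M * (L i / S)⌋₊ : ℕ) : ℝ) ≤ L i ∧ L i - S / M ≤ S / M * ((min M ⌊M * (L i / S)⌋₊ : ℕ) : ℝ)
    have h1 : L i / S ≤ 1 := (div_le_one h).2 (hLS i hi)
    have h0 : 0 ≤ (M : ℝ) * (L i / S) := mul_nonneg hM0.le (div_nonneg (hL i hi) hS0)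
    have h2 : ⌊(M : ℝ) * (L i / S)⌋₊ ≤ M := by
      refine Nat.floor_le_of_le ?_
      calc (M : ℝ) * (L i / S) ≤ M * 1 := mul_le_mul_of_nonneg_left h1 hM0.le
        _ = M := mul_one _
    rw [min_eq_right h2]
    have h3 := Nat.floor_le h0
    have h4 := (Nat.lt_floor_add_one ((M : ℝ) * (L i / S))).le
    have e1 : S / M * ((M : ℝ) * (L i / S)) = L i := by
      field_simp
    have hSM : 0 < S / M := div_pos h hM0
    constructor
    · calc S / M * (⌊(M : ℝ) * (L i / S)⌋₊ : ℝ) ≤ S / M * ((M : ℝ) * (L i / S)) := mul_le_mul_of_nonneg_left h3 hSM.le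
        _ = L i := e1
    · have h5 := mul_le_mul_of_nonneg_left h4 hSM.le
      rw [e1, mul_add, mul_one] at h5
      linarith

theorem core0_rl {k : Type u} [Field k] [NumberField k] {N q e : ℕ} (P : Ideal (MvPolynomial (Fin (N + 1)) k)) [hPp : P.IsPrime]
    (hP : ∀ p ∈ P, ∀ m, homogeneousComponent m p ∈ P) (d : Fin q → Fin e → ℕ)
    (f : Fin q → Fin e → MvPolynomial (Fin (N + 1)) k) (hf : ∀ i j, (f i j).IsHomogeneous (d i j)) {Ξ : Type} [Fintype Ξ]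
    (γ θ : Ξ → Fin q → ℝ) (hγ : ∀ ξ i, 0 ≤ γ ξ i) (hθ : ∀ ξ i, 0 ≤ θ ξ i)
    (hγθ : ∀ ξ i, ∀ᶠ m : ℕ in atTop, γ ξ i * (m * hilb P m) ≤
      ∑ x ∈ Finset.range ⌊θ ξ i * m⌋₊, (dimf P (sat (P ⊔ idl f i ^ (x + 1))) m : ℝ))
    {δ : ℝ} (hδ : 0 < δ) :
    ∃ (m : ℕ) (Q : MvPolynomial (Fin (N + 1)) k), 0 < m ∧ Q ∉ P ∧ (∃ e, Q.IsHomogeneous e) ∧
      ∀ {G : Type} [Group G] [Fintype G] {D : SqG k G} (y : ∀ a, Fin (N + 1) → D.L a), Ptg D y →
        (∀ a, ∀ p ∈ P, aeval (y a) p = 0) → (∀ a, aeval (y a) Q ≠ 0) →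
        ∀ {Λ : Type u} [Fintype Λ] (T : Λ → Finset (Fin q)), (∀ l, GenPos P (idl f) (T l)) →
        (∀ a, ∀ l, ∀ i ∈ T l, ∃ j, aeval (y a) (f i j) ≠ 0) →
        ∀ (v : Λ → Pl k) (g : Λ → G) (ξ : Λ → Ξ) (L : Λ → Fin q → ℝ), (∀ l, ∀ i ∈ T l, 0 ≤ L l i) →
        (∀ l, ∀ i ∈ T l, LB D (fun a => gamJ (D.s a) (D.N a) (y a) (d i) (f i) (v l) (g l)) (L l i)) →
        ∀ κ : Λ → ℝ, (∀ l, 0 ≤ κ l) →
        ∃ V' : Submodule k (MvPolynomial (Fin (N + 1)) k ⧸ vanI D y), V' ≤ HQ (vanI D y) m ∧ 0 < finrank k V' ∧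
          ∃ (R : Λ → ℕ) (b : ∀ l, Fin (R l) → MvPolynomial (Fin (N + 1)) k) (σ : ∀ l, Fin (R l) → ℝ),
            (∀ l i, (b l i).IsHomogeneous m) ∧ (∀ l i, Ideal.Quotient.mk (vanI D y) (b l i) ∈ V') ∧
            (∀ l, LinearIndependent k fun i => Ideal.Quotient.mk (vanI D y) (b l i)) ∧
            (∀ l i, b l i ∈ Submodule.span k {p : MvPolynomial (Fin (N + 1)) k | p.IsHomogeneous m ∧ (p ∈ vanI D y ∨
              LB D (fun a => gam (D.s a) (D.N a) (y a) m p (v l) (g l)) (σ l i))}) ∧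
            (∀ l i, σ l i ≤ m * ∑ i ∈ T l, θ (ξ l) i * L l i) ∧
            finrank k V' * (m * ∑ l, κ l * ∑ i ∈ T l, (γ (ξ l) i - δ) * L l i) ≤
              ∑ l, κ l * ∑ i, σ l i := by
  classical
  by_cases hX : ∃ j, (X j : MvPolynomial (Fin (N + 1)) k) ∉ P
  swap
  · refine ⟨1, 1, one_pos, fun h => hPp.ne_top ((Ideal.eq_top_iff_one P).2 h), ⟨0, isHomogeneous_one _ _⟩, ?_⟩
    intro G _ _ D y hy hyP
    exfalso
    push Not at hX
    obtain ⟨j, hj⟩ := hy.1 0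
    have h1 := hyP 0 _ (hX j)
    rw [aeval_X, hj] at h1
    exact one_ne_zero h1
  obtain ⟨j0, hj0⟩ := hX
  have hB0 : 0 ≤ ∑ ξ, ∑ i, γ ξ i := Finset.sum_nonneg fun ξ _ => Finset.sum_nonneg fun i _ => hγ ξ i
  obtain ⟨M, hM, hMδ'⟩ : ∃ M : ℕ, 0 < M ∧ (∑ ξ, ∑ i, γ ξ i) / M ≤ δ := by
    refine ⟨⌈(∑ ξ, ∑ i, γ ξ i) / δ⌉₊ + 1, Nat.succ_pos _, ?_⟩
    have h1 := Nat.le_ceil ((∑ ξ, ∑ i, γ ξ i) / δ)
    rw [div_le_iff₀ hδ] at h1
    rw [div_le_iff₀ (by positivity)]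
    push_cast
    nlinarith
  have hM0 : (0 : ℝ) < M := by exact_mod_cast hM
  have hMδ : ∀ ξ, (∑ i, γ ξ i) / M ≤ δ := fun ξ =>
    (div_le_div_of_nonneg_right (Finset.single_le_sum (f := fun ξ => ∑ i, γ ξ i)
      (fun ξ _ => Finset.sum_nonneg fun i _ => hγ ξ i) (Finset.mem_univ ξ)) hM0.le).trans hMδ'
  obtain ⟨m, hm, hmpos⟩ := ((Filter.eventually_all.2 fun ξ => Filter.eventually_all.2 fun i => hγθ ξ i).and
    (eventually_ge_atTop 1)).exists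
  have hmp : 0 < m := hmpos
  have hmR : (0 : ℝ) < m := by exact_mod_cast hmp
  -- the families
  have hfam := fun z : Ξ × (Fin q → Fin (M + 1)) => fam_exK P (fil P (idl f) fun i => (z.2 i : ℕ)) (fil_anti P (idl f) _) m
    (∑ i, (z.2 i : ℕ) * ⌊θ z.1 i * m⌋₊)
  choose R μ p hph hpf hμK hpI hpμ using hfam
  obtain ⟨𝒬, h𝒬, hQ⟩ := Pool.Agent.ZS.hnp.{u, u} P ⟨X j0 ^ m, by
      have := (isHomogeneous_X k j0).pow m
      rwa [one_mul] at this, fun h => hj0 (hPp.mem_of_pow_mem _ h)⟩ R p hph hpI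
  refine ⟨m, ∏ q ∈ 𝒬, q, hmp, ?_, ⟨∑ q ∈ 𝒬, m, IsHomogeneous.prod _ _ _ fun q hq => (h𝒬 q hq).1⟩, ?_⟩
  · intro h
    obtain ⟨q, hq, hq'⟩ := hPp.prod_mem_iff.1 h
    exact (h𝒬 q hq).2 hq'
  intro G _ _ D y hy hyP hyQ Λ _ T hT hyf v g ξ L hL0 hL κ hκ
  have hPv : P ≤ vanI D y := fun p hp => Eventually.of_forall fun a => hyP a p hp
  have hQv : ∀ q ∈ 𝒬, q ∉ vanI D y := by
    intro q hq h
    have h1 : ∀ᶠ a in (D.U : Filter ℕ), aeval (y a) q = 0 := h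
    obtain ⟨a, ha⟩ := h1.exists
    refine hyQ a ?_
    rw [map_prod]
    exact Finset.prod_eq_zero hq ha
  have hgr := fun l => grid80 (T l) (L l) (hL0 l) hM
  choose z c hc hz0 hz using hgr
  obtain ⟨V', hV', hpos, n', e', σ, heh, heV, heI, heS, hσ, hmain⟩ := hQ (vanI D y) hPv hQv (fun l => (ξ l, z l)) κ
    (fun l t => c l * (μ (ξ l, z l) t : ℝ)) fun l t => mul_nonneg (hc l) (Nat.cast_nonneg _)
  refine ⟨V', hV', hpos, n', e', σ, heh, heV, heI, fun l i => ?_, fun l i => ?_, ?_⟩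
  · refine Submodule.span_mono ?_ (heS l i)
    rintro _ ⟨t, rfl, ht⟩
    refine ⟨hph _ t, ?_⟩
    rcases weil y hy P hP hyP d f hf (v l) (g l) (T l) (fun a => hyf a l) (L l) (hL l) (fun i => (z l i : ℕ)) (hz0 l) (c l) (hc l)
      (fun i hi => (hz l i hi).1) m (μ (ξ l, z l) t) (p (ξ l, z l) t) (hph _ t) (hpf _ t) with h | h
    · exact Or.inl h
    · refine Or.inr fun η hη => ?_
      filter_upwards [h η hη, D.H1.eventually_gt_atTop 0] with a h2 h3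
      refine le_trans (mul_le_mul_of_nonneg_right ?_ h3.le) h2
      exact sub_le_sub_right ht η
  · obtain ⟨t, ht⟩ := hσ l i
    rw [ht]
    have h1 : c l * (μ (ξ l, z l) t : ℝ) ≤ c l * ((∑ i, (z l i : ℕ) * ⌊θ (ξ l) i * m⌋₊ : ℕ) : ℝ) :=
      mul_le_mul_of_nonneg_left (by exact_mod_cast hμK (ξ l, z l) t) (hc l)
    refine h1.trans ?_
    push_cast
    rw [Finset.mul_sum, Finset.mul_sum]
    have h2 : ∑ i, c l * (((z l i : ℕ) : ℝ) * (⌊θ (ξ l) i * m⌋₊ : ℝ)) =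
        ∑ i ∈ T l, c l * (((z l i : ℕ) : ℝ) * (⌊θ (ξ l) i * m⌋₊ : ℝ)) := by
      refine (Finset.sum_subset (Finset.subset_univ _) fun i _ hi => ?_).symm
      rw [hz0 l i hi, Nat.cast_zero, zero_mul, mul_zero]
    rw [h2]
    refine Finset.sum_le_sum fun i hi => ?_
    have h3 : (⌊θ (ξ l) i * m⌋₊ : ℝ) ≤ θ (ξ l) i * m := Nat.floor_le (mul_nonneg (hθ _ _) hmR.le)
    calc c l * (((z l i : ℕ) : ℝ) * (⌊θ (ξ l) i * m⌋₊ : ℝ)) = c l * (z l i : ℕ) * (⌊θ (ξ l) i * m⌋₊ : ℝ) := by ring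
      _ ≤ L l i * (θ (ξ l) i * m) := mul_le_mul (hz l i hi).1 h3 (Nat.cast_nonneg _) (hL0 l i hi)
      _ = m * (θ (ξ l) i * L l i) := by ring
  · -- the estimate
    obtain ⟨Dm, hDm⟩ : ∃ Dm : ℝ, Dm = hilb P m := ⟨_, rfl⟩
    have hDm0 : 0 < Dm := by
      rw [hDm]
      have hfd := Pool.Agent.ZS.fd_hom (k := k) (N := N) m
      have h3 : Nontrivial (HQ P m) := by
        refine ⟨⟨⟨Ideal.Quotient.mk P (X j0 ^ m), mem_HQ (by
          have := (isHomogeneous_X k j0).pow m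
          rwa [one_mul] at this)⟩, 0, fun h => hj0 (hPp.mem_of_pow_mem m ?_)⟩⟩
        exact Ideal.Quotient.eq_zero_iff_mem.1 (congrArg Subtype.val h)
      have h4 : 0 < finrank k (HQ P m) := finrank_pos
      exact_mod_cast h4
    rw [← hDm] at hmain
    have hest : ∀ l, Dm * (m * ∑ i ∈ T l, (γ (ξ l) i - δ) * L l i) ≤ ∑ t, c l * (μ (ξ l, z l) t : ℝ) := by
      intro l
      obtain ⟨S, hS⟩ : ∃ S : ℝ, S = ∑ i ∈ T l, L l i := ⟨_, rfl⟩
      have hS0 : 0 ≤ S := by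
        rw [hS]
        exact Finset.sum_nonneg (hL0 l)
      have h1 := beta_sumK P (idl f) (T l) (hT l) (fun i => (z l i : ℕ)) (hz0 l) m (fun i => ⌊θ (ξ l) i * m⌋₊)
      have h2 := h1.trans (hpμ (ξ l, z l))
      have h3 : ∑ i, ((z l i : ℕ) : ℝ) * (γ (ξ l) i * (m * Dm)) ≤ ∑ t, (μ (ξ l, z l) t : ℝ) := by
        have h3a : ∑ i, ((z l i : ℕ) : ℝ) * (γ (ξ l) i * (m * Dm)) ≤ ∑ i, ((z l i : ℕ) : ℝ) *
            ((∑ x ∈ Finset.range ⌊θ (ξ l) i * m⌋₊, dimf P (sat (P ⊔ idl f i ^ (x + 1))) m : ℕ) : ℝ) := by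
          refine Finset.sum_le_sum fun i _ => mul_le_mul_of_nonneg_left ?_ (Nat.cast_nonneg _)
          rw [hDm]
          push_cast
          exact hm (ξ l) i
        refine h3a.trans ?_
        exact_mod_cast h2
      have h4 : ∑ i ∈ T l, (γ (ξ l) i - δ) * L l i ≤ ∑ i ∈ T l, c l * (z l i : ℕ) * γ (ξ l) i := by
        have h5 : ∀ i ∈ T l, γ (ξ l) i * L l i - c l * (z l i : ℕ) * γ (ξ l) i ≤ γ (ξ l) i * (S / M) := by
          intro i hi
          obtain ⟨h6, h7⟩ := hz l i hi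
          rw [← hS] at h7
          have h8 : γ (ξ l) i * (L l i - S / M) ≤ γ (ξ l) i * (c l * (z l i : ℕ)) := mul_le_mul_of_nonneg_left h7 (hγ _ i)
          nlinarith
        have h6 := Finset.sum_le_sum h5
        rw [Finset.sum_sub_distrib, ← Finset.sum_mul] at h6
        have h7 : (∑ i ∈ T l, γ (ξ l) i) * (S / M) ≤ δ * S := by
          calc (∑ i ∈ T l, γ (ξ l) i) * (S / M) ≤ (∑ i, γ (ξ l) i) * (S / M) :=
              mul_le_mul_of_nonneg_right (Finset.sum_le_sum_of_subset_of_nonneg (Finset.subset_univ _)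
                fun i _ _ => hγ _ i) (div_nonneg hS0 hM0.le)
            _ = (∑ i, γ (ξ l) i) / M * S := by ring
            _ ≤ δ * S := mul_le_mul_of_nonneg_right (hMδ _) hS0
        have h8 : ∑ i ∈ T l, (γ (ξ l) i - δ) * L l i = ∑ i ∈ T l, γ (ξ l) i * L l i - δ * S := by
          rw [hS, Finset.mul_sum, ← Finset.sum_sub_distrib]
          exact Finset.sum_congr rfl fun i _ => sub_mul _ _ _
        rw [h8]
        linarith
      have h5 : ∑ i, ((z l i : ℕ) : ℝ) * (γ (ξ l) i * (m * Dm)) = ∑ i ∈ T l, ((z l i : ℕ) : ℝ) * (γ (ξ l) i * (m * Dm)) := by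
        refine (Finset.sum_subset (Finset.subset_univ _) fun i _ hi => ?_).symm
        rw [hz0 l i hi, Nat.cast_zero, zero_mul]
      have h6 := mul_le_mul_of_nonneg_left h3 (hc l)
      rw [h5] at h6
      rw [← Finset.mul_sum]
      refine le_trans ?_ h6
      have h7 : c l * ∑ i ∈ T l, ((z l i : ℕ) : ℝ) * (γ (ξ l) i * (m * Dm)) =
          m * Dm * ∑ i ∈ T l, c l * (z l i : ℕ) * γ (ξ l) i := by
        rw [Finset.mul_sum, Finset.mul_sum]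
        exact Finset.sum_congr rfl fun i _ => by ring
      rw [h7]
      have h8 : Dm * (m * ∑ i ∈ T l, (γ (ξ l) i - δ) * L l i) = m * Dm * ∑ i ∈ T l, (γ (ξ l) i - δ) * L l i := by ring
      rw [h8]
      exact mul_le_mul_of_nonneg_left h4 (mul_nonneg hmR.le hDm0.le)
    have h5 : (finrank k V' : ℝ) * ∑ l, κ l * (Dm * (m * ∑ i ∈ T l, (γ (ξ l) i - δ) * L l i)) ≤
        finrank k V' * ∑ l, κ l * ∑ t, c l * (μ (ξ l, z l) t : ℝ) :=
      mul_le_mul_of_nonneg_left (Finset.sum_le_sum fun l _ => mul_le_mul_of_nonneg_left (hest l) (hκ l)) (Nat.cast_nonneg _)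
    have h6 := h5.trans hmain
    refine le_of_mul_le_mul_left (le_trans (le_of_eq ?_) h6) hDm0
    simp only [Finset.mul_sum]
    exact Finset.sum_congr rfl fun l _ => Finset.sum_congr rfl fun i _ => by ring

end Pool.Agent.SQ.RV
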