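import Pool.Agent.Helper80.RV.COR0

/-!
# RX9a: the inequality for the limits of the local values, points in towers

As in `Pool/Agent/Helper68/ZS/COI.lean` (helper68), from `core0_rv`.
-/

set_option autoImplicit false
set_option linter.unusedSectionVars false

namespace Pool.Agent.SQ.RV

open NumberField Filter Module MvPolynomial
open Pool.Agent.Helper64.Vojta (Pl nv sn above)
open Pool.Agent.Helper52.Vojta (ldeg)
open Pool.Agent.V2
open Pool.Agent.Chart (fld dg crd hgt)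
open Pool.Agent.ZS (HQ mem_HQ)

universe u v

theorem core_irvx {k : Type u} [Field k] [NumberField k] {N q e : ℕ} (P : Ideal (MvPolynomial (Fin (N + 1)) k)) [hPp : P.IsPrime]
    (hP : ∀ p ∈ P, ∀ m, homogeneousComponent m p ∈ P) (d : Fin q → Fin e → ℕ)
    (f : Fin q → Fin e → MvPolynomial (Fin (N + 1)) k) (hf : ∀ i j, (f i j).IsHomogeneous (d i j)) (β : Fin q → ℝ)
    (hβ0 : ∀ i, 0 < β i) (hβ : ∀ i, ∀ δ : ℝ, 0 < δ → ∀ᶠ m : ℕ in atTop, ∃ K : ℕ,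
      (β i - δ) * (m * hilb P m) ≤ ∑ x ∈ Finset.range K, (dimf P (sat (P ⊔ idl f i ^ (x + 1))) m : ℝ))
    {ε : ℝ} (hε : 0 < ε) :
    ∃ Q : MvPolynomial (Fin (N + 1)) k, Q ∉ P ∧ (∃ e, Q.IsHomogeneous e) ∧
      ∀ {G : Type} [Group G] [Fintype G] {D : SqG k G} (y : ∀ a, Fin (N + 1) → D.L a), Ptg D y →
        (∀ a, ∀ p ∈ P, aeval (y a) p = 0) → (∀ a, aeval (y a) Q ≠ 0) →
        ∀ (S : Finset (Pl k)) (T : Pl k → G → Finset (Fin q)), (∀ v ∈ S, ∀ g, GenPos P (idl f) (T v g)) →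
        (∀ a, ∀ i, ∃ j, aeval (y a) (f i j) ≠ 0) →
        ∀ (L : Pl k → G → Fin q → ℝ), (∀ v ∈ S, ∀ g, ∀ i, 0 ≤ L v g i) →
        (∀ v ∈ S, ∀ g, ∀ i, LB D (fun a => gamJ (D.s a) (D.N a) (y a) (d i) (f i) v g) (L v g i)) →
        ∀ (H : Subgroup G), H.IsSubnormal → (∀ n, ∀ h ∈ H, ∀ j, D.s n h (y n j) = y n j) →
          ∑ v ∈ S, ∑ g, ((1 - ε) * ∑ i ∈ T v g, β i * L v g i) ≤ H.index := by
  classical
  obtain ⟨m, Q, hm, hQ, hQh, hcore⟩ := core0_rv P hP d f hf β hβ0 hβ hε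
  refine ⟨Q, hQ, hQh, ?_⟩
  intro G _ _ D y hy hyP hyQ S T hT hyf L hL0 hL H hHs hxH
  have hmR : (0 : ℝ) < m := by exact_mod_cast hm
  have fq : Fintype (G ⧸ H) := Fintype.ofFinite _
  obtain ⟨V', hV', hpos, R, e', σ, heh, heV, heI, heS, hmain⟩ := hcore y hy hyP hyQ
    (Λ := ↥S × G) (fun l => T l.1 l.2) (fun l => hT _ l.1.2 _) (fun a l i _ => hyf a i)
    (fun l => l.1) (fun l => l.2) (fun l => L l.1 l.2)
    (fun l i _ => hL0 _ l.1.2 _ i) (fun l i _ => hL _ l.1.2 _ i) (fun _ => 1) (fun _ => zero_le_one)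
  have hD0 : (0 : ℝ) < finrank k V' := by exact_mod_cast hpos
  simp only [one_mul] at hmain
  rw [Fintype.sum_prod_type, Fintype.sum_prod_type] at hmain
  have hf1 : ∀ (v : Pl k) (g : G), ∃ (n : ℕ) (e₁ : Fin n → MvPolynomial (Fin (N + 1)) k) (σ₁ : Fin n → ℝ),
      (∀ i, (e₁ i).IsHomogeneous m) ∧ ∀ h : v ∈ S, (∀ i, Ideal.Quotient.mk (vanI D y) (e₁ i) ∈ V') ∧
      (LinearIndependent k fun i => Ideal.Quotient.mk (vanI D y) (e₁ i)) ∧
      (∀ i, e₁ i ∈ Submodule.span k {p : MvPolynomial (Fin (N + 1)) k | p.IsHomogeneous m ∧ (p ∈ vanI D y ∨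
            LB D (fun a => gam (D.s a) (D.N a) (y a) m p v g) (σ₁ i))}) ∧
      ∑ i, σ₁ i = ∑ i, σ (⟨v, h⟩, g) i := by
    intro v g
    by_cases h : v ∈ S
    · exact ⟨R (⟨v, h⟩, g), e' (⟨v, h⟩, g), σ (⟨v, h⟩, g), heh _, fun _ =>
        ⟨heV _, heI _, heS (⟨v, h⟩, g), rfl⟩⟩
    · exact ⟨0, Fin.elim0, Fin.elim0, fun i => i.elim0, fun h' => absurd h' h⟩
  choose n₁ e₁ σ₁ he₁h he₁ using hf1
  have hver := ver_ti hm y hHs hy hxH S V' hV' n₁ e₁ he₁h (fun v hv g => (he₁ v g hv).2.1)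
    (fun v hv g => (he₁ v g hv).1) σ₁ (fun v hv g => (he₁ v g hv).2.2.1)
  rw [← Finset.sum_coe_sort S] at hver ⊢
  rw [Finset.sum_congr rfl fun (v : S) _ => Finset.sum_congr rfl fun g _ => (he₁ v g v.2).2.2.2] at hver
  refine le_of_mul_le_mul_left ?_ (mul_pos hD0 hmR)
  rw [mul_assoc]
  refine hmain.trans (hver.trans (le_of_eq ?_))
  ring

end Pool.Agent.SQ.RV
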