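import Pool.Agent.Helper68.ZS.COI
import Pool.Agent.Helper80.LD.SEQld

/-!
# Effective Cartier divisors in general position: definitions

The divisors are given by homogeneous ideals `J i` of `k[X_0, ..., X_N]`, the variety by the prime ideal `P`.
-/

set_option autoImplicit false

namespace Pool.Agent.SQ.RV

open NumberField Filter Module MvPolynomial
open Pool.Agent.Helper64.Vojta (Pl nv sn above)
open Pool.Agent.V2
open Pool.Agent.Chart (fld dg crd hgt)
open Pool.Agent.ZS (HQ mem_HQ)

universe u

/-- the ideal generated by the products `∏ J i ^ b i` with `∑ u i * b i ≥ x` -/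
noncomputable def wid {R : Type*} [CommSemiring R] {q : ℕ} (J : Fin q → Ideal R) (u : Fin q → ℕ) (x : ℕ) : Ideal R :=
  ⨆ b : {b : Fin q → ℕ // x ≤ ∑ i, u i * b i}, ∏ i, J i ^ b.1 i

section

variable {k : Type u} [Field k] {N : ℕ}

/-- saturation with respect to the irrelevant ideal -/
def sat (I : Ideal (MvPolynomial (Fin (N + 1)) k)) : Ideal (MvPolynomial (Fin (N + 1)) k) where
  carrier := {p | ∃ M : ℕ, ∀ l, X l ^ M * p ∈ I}
  zero_mem' := ⟨0, fun l => by simp⟩
  add_mem' := by
    rintro a b ⟨M, hM⟩ ⟨M', hM'⟩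
    refine ⟨M + M', fun l => ?_⟩
    have e : (X l : MvPolynomial (Fin (N + 1)) k) ^ (M + M') * (a + b) =
        X l ^ M' * (X l ^ M * a) + X l ^ M * (X l ^ M' * b) := by ring
    rw [e]
    exact I.add_mem (I.mul_mem_left _ (hM l)) (I.mul_mem_left _ (hM' l))
  smul_mem' := by
    rintro c a ⟨M, hM⟩
    refine ⟨M, fun l => ?_⟩
    rw [smul_eq_mul, mul_left_comm]
    exact I.mul_mem_left _ (hM l)

/-- the filtration of weight `u` -/
noncomputable def fil (P : Ideal (MvPolynomial (Fin (N + 1)) k)) {q : ℕ} (J : Fin q → Ideal (MvPolynomial (Fin (N + 1)) k))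
    (u : Fin q → ℕ) (x : ℕ) : Ideal (MvPolynomial (Fin (N + 1)) k) := sat (P ⊔ wid J u x)

/-- the image of the forms of degree `m` in `I` in the quotient by `P` -/
noncomputable def frm (P I : Ideal (MvPolynomial (Fin (N + 1)) k)) (m : ℕ) : Submodule k (MvPolynomial (Fin (N + 1)) k ⧸ P) :=
  (homogeneousSubmodule (Fin (N + 1)) k m ⊓ I.restrictScalars k).map (Ideal.Quotient.mkₐ k P).toLinearMap

/-- its dimension -/
noncomputable def dimf (P I : Ideal (MvPolynomial (Fin (N + 1)) k)) (m : ℕ) : ℕ := finrank k (frm P I m)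

/-- The subschemes `J i`, `i ∈ T`, of the variety of `P` intersect properly. In every local ring `R_p` of the cone without its
vertex either (a) there are elements `φ a`, which are regular sequences in any order, such that the ideals `J i R_p` are generated
by disjoint groups of them, or (b) `p` contains at most one of the `J i`. -/
def GenPos (P : Ideal (MvPolynomial (Fin (N + 1)) k)) {q : ℕ} (J : Fin q → Ideal (MvPolynomial (Fin (N + 1)) k))
    (T : Finset (Fin q)) : Prop :=
  ∀ (p : Ideal (MvPolynomial (Fin (N + 1)) k ⧸ P)) [p.IsPrime], (∃ l, Ideal.Quotient.mk P (X l) ∉ p) →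
    (∃ (c : ℕ) (φ : Fin c → Localization.AtPrime p) (π : Fin c → Fin q),
      (∀ i ∈ T, ((J i).map (Ideal.Quotient.mk P)).map (algebraMap _ (Localization.AtPrime p)) =
        Ideal.span (φ '' {a | π a = i})) ∧
      ∀ (a : Fin c) (U : Finset (Fin c)), a ∉ U → ∀ z, φ a * z ∈ Ideal.span (φ '' (U : Set (Fin c))) →
        z ∈ Ideal.span (φ '' (U : Set (Fin c)))) ∨
    ∀ i ∈ T, ∀ j ∈ T, i ≠ j → ¬ ((J i).map (Ideal.Quotient.mk P) ≤ p ∧ (J j).map (Ideal.Quotient.mk P) ≤ p)

end

/-- the local value of an ideal at the absolute value `M v ∘ g` -/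
noncomputable def gamJ {k : Type u} [Field k] [NumberField k] {L : Type u} [Field L] [Algebra k L] {G : Type*} [Group G]
    (s : G →* (L ≃ₐ[k] L)) (M : Pl k → L → ℝ) {N e : ℕ} (y : Fin (N + 1) → L) (d : Fin e → ℕ)
    (f : Fin e → MvPolynomial (Fin (N + 1)) k) (v : Pl k) (g : G) : ℝ :=
  -Real.log (⨆ j, M v (s g (aeval y (f j))) / (mxn (M v) fun l => s g (y l)) ^ d j)

section

variable {k : Type u} [Field k] [NumberField k] {N e : ℕ}

/-- The contribution of the place `w` of the residue field to the Weil function of the subscheme of the forms `f j` of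
degrees `d j`, relative to `k`. -/
noncomputable def lamJ (d : Fin e → ℕ) (f : Fin e → MvPolynomial (Fin N) k) (x : Fin N → AlgebraicClosure k)
    (w : Pl (fld x)) : ℝ :=
  -Real.log (⨆ j, nv w (aeval (crd x) (f j)) / sn w (crd x) ^ d j) / dg x

/-- the ideal of the forms -/
noncomputable def idl {q : ℕ} (f : Fin q → Fin e → MvPolynomial (Fin (N + 1)) k) (i : Fin q) :
    Ideal (MvPolynomial (Fin (N + 1)) k) := Ideal.span (Set.range (f i))

end

end Pool.Agent.SQ.RV
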